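import Pool.Agent.Helper15.FC.St3

/-! # Project FC, module FOU: Fourier inversion for a correlation -/

set_option autoImplicit false

namespace Pool.Agent.Helper67.FC

open Pool.Agent.Helper15.FC Polynomial

/-- FC MODULE FOU -/
theorem hFOU (hACF : StACF) : StFOU := by
  classical
  intro F _ _ m a b h hh
  obtain ⟨-, hr⟩ := hACF F
  obtain ⟨-, -, -, h1, h2⟩ := hr (X ^ m) (monic_X_pow m)
  rw [natDegree_X_pow] at h1
  have hsum : ∀ g ∈ Lw F m, ∀ g' ∈ Lw F m,
      ∑ η ∈ ACf (X ^ m : F[X]), η (g' - g - h) =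
        if g' = g + h then (Fintype.card F : ℂ) ^ m else 0 := by
    intro g hg g' hg'
    split_ifs with hgg
    · apply h1
      rw [hgg]
      have h3 : g + h - g - h = 0 := by ring
      rw [h3]
      exact dvd_zero _
    · apply h2
      intro hdvd
      apply hgg
      have h3 : (g' - g - h).degree < (X ^ m : F[X]).degree := by
        rw [degree_X_pow]
        rw [mem_Lw] at hg hg' hh
        exact lt_of_le_of_lt (degree_sub_le _ _)
          (max_lt (lt_of_le_of_lt (degree_sub_le _ _) (max_lt hg' hg)) hh)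
      have h4 := eq_zero_of_dvd_of_degree_lt hdvd h3
      linear_combination h4
  have key : ∑ η ∈ ACf (X ^ m : F[X]),
      (∑ g ∈ Lw F m, a g * η (-g)) * (∑ g ∈ Lw F m, b g * η g) * η (-h) =
      ∑ g ∈ Lw F m, ∑ g' ∈ Lw F m, a g * b g' * ∑ η ∈ ACf (X ^ m : F[X]), η (g' - g - h) := by
    have h3 : ∀ η ∈ ACf (X ^ m : F[X]),
        (∑ g ∈ Lw F m, a g * η (-g)) * (∑ g ∈ Lw F m, b g * η g) * η (-h) =
        ∑ g ∈ Lw F m, ∑ g' ∈ Lw F m, a g * b g' * η (g' - g - h) := by
      intro η _
      rw [Finset.sum_mul_sum, Finset.sum_mul]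
      refine Finset.sum_congr rfl fun g _ => ?_
      rw [Finset.sum_mul]
      refine Finset.sum_congr rfl fun g' _ => ?_
      have h4 : g' - g - h = -g + g' + -h := by ring
      rw [h4, AddChar.map_add_eq_mul, AddChar.map_add_eq_mul]
      ring
    rw [Finset.sum_congr rfl h3, Finset.sum_comm]
    refine Finset.sum_congr rfl fun g _ => ?_
    rw [Finset.sum_comm]
    refine Finset.sum_congr rfl fun g' _ => ?_
    rw [Finset.mul_sum]
  rw [key, Finset.mul_sum]
  refine Finset.sum_congr rfl fun g hg => ?_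
  have h5 : ∀ g' ∈ Lw F m, a g * b g' * ∑ η ∈ ACf (X ^ m : F[X]), η (g' - g - h) =
      if g' = g + h then a g * b g' * (Fintype.card F : ℂ) ^ m else 0 := by
    intro g' hg'
    rw [hsum g hg g' hg', mul_ite, mul_zero]
  have h6 : g + h ∈ Lw F m := by
    rw [mem_Lw] at hg hh ⊢
    exact lt_of_le_of_lt (degree_add_le _ _) (max_lt hg hh)
  rw [Finset.sum_congr rfl h5, Finset.sum_ite_eq', if_pos h6]
  ring

end Pool.Agent.Helper67.FC
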